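import Pool.Agent.BoltzD.Coll.Bound
import Mathlib.RingTheory.PiTensorProduct
import Mathlib.Tactic.Polynomial.Basic
import Mathlib.Analysis.Calculus.LineDeriv.IntegrationByParts
import Pool.Agent.BoltzD.Solver.Ops

-- ======== part 0: formerly Pool.Agent.BoltzD.Coll.C1
section MrgPart0

/-!
The symmetrised weak form, collision invariants, the dissipation and the sign lemma.
-/

open MeasureTheory Real Set
open scoped ENNReal RealInnerProductSpace

noncomputable section

namespace Pool.Agent.BoltzD.Coll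

variable [Dim]

variable {p : ℕ} {Ka Kg Kg' Kh Kh' Kf : ℝ} {a g g' h h' f : E → ℝ}

/-! linearity -/

lemma Tri_add_left (ha : Measurable a) (hKa : ∀ w, (1 + ‖w‖) ^ (dd + 30) * |a w| ≤ Ka)
    (Hg : Nice p Kg g) (Hg' : Nice p Kg' g') (Hh : Nice p Kh h) (v : E) :
    Tri a (fun x => g x + g' x) h v = Tri a g h v + Tri a g' h v := by
  rw [Tri, Tri, Tri, ← integral_add (integrable_triI ha hKa Hg Hh v)
    (integrable_triI ha hKa Hg' Hh v)]
  congr 1; funext q; simp only [triI]; ring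

lemma Tri_add_right (ha : Measurable a) (hKa : ∀ w, (1 + ‖w‖) ^ (dd + 30) * |a w| ≤ Ka)
    (Hg : Nice p Kg g) (Hh : Nice p Kh h) (Hh' : Nice p Kh' h') (v : E) :
    Tri a g (fun x => h x + h' x) v = Tri a g h v + Tri a g h' v := by
  rw [Tri, Tri, Tri, ← integral_add (integrable_triI ha hKa Hg Hh v)
    (integrable_triI ha hKa Hg Hh' v)]
  congr 1; funext q; simp only [triI]; ring

lemma Tri_smul_left (a g h : E → ℝ) (c : ℝ) (v : E) :
    Tri a (fun x => c * g x) h v = c * Tri a g h v := by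
  rw [Tri, Tri, ← integral_const_mul]
  congr 1; funext q; simp only [triI]; ring

lemma Tri_smul_right (a g h : E → ℝ) (c : ℝ) (v : E) :
    Tri a g (fun x => c * h x) v = c * Tri a g h v := by
  rw [Tri, Tri, ← integral_const_mul]
  congr 1; funext q; simp only [triI]; ring

lemma Tri_smul_weight (a g h : E → ℝ) (c : ℝ) (v : E) :
    Tri (fun x => c * a x) g h v = c * Tri a g h v := by
  rw [Tri, Tri, ← integral_const_mul]
  congr 1; funext q; simp only [triI]; ring

lemma Gam_add_left (Hg : Nice p Kg g) (Hg' : Nice p Kg' g') (Hh : Nice p Kh h) (v : E) :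
    Gam (fun x => g x + g' x) h v = Gam g h v + Gam g' h v :=
  Tri_add_left measurable_sM sM_wt13 Hg Hg' Hh v

lemma Gam_add_right (Hg : Nice p Kg g) (Hh : Nice p Kh h) (Hh' : Nice p Kh' h') (v : E) :
    Gam g (fun x => h x + h' x) v = Gam g h v + Gam g h' v :=
  Tri_add_right measurable_sM sM_wt13 Hg Hh Hh' v

lemma Gam_smul_left (g h : E → ℝ) (c : ℝ) (v : E) :
    Gam (fun x => c * g x) h v = c * Gam g h v := Tri_smul_left _ _ _ _ _

lemma Gam_smul_right (g h : E → ℝ) (c : ℝ) (v : E) :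
    Gam g (fun x => c * h x) v = c * Gam g h v := Tri_smul_right _ _ _ _ _

lemma Gam_sub_left (Hg : Nice p Kg g) (Hg' : Nice p Kg' g') (Hh : Nice p Kh h) (v : E) :
    Gam (fun x => g x - g' x) h v = Gam g h v - Gam g' h v := by
  have h1 := Gam_add_left Hg (Hg'.const_mul (-1)) Hh v
  rw [Gam_smul_left] at h1
  simpa [sub_eq_add_neg] using h1

lemma Gam_sub_right (Hg : Nice p Kg g) (Hh : Nice p Kh h) (Hh' : Nice p Kh' h') (v : E) :
    Gam g (fun x => h x - h' x) v = Gam g h v - Gam g h' v := by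
  have h1 := Gam_add_right Hg Hh (Hh'.const_mul (-1)) v
  rw [Gam_smul_right] at h1
  simpa [sub_eq_add_neg] using h1

lemma Gam_sM_sM (v : E) : Gam sM sM v = 0 := by
  have : triI sM sM sM v = fun _ => 0 := by
    funext q
    rw [triI, mul_comm (sM (pw v q.1 q.2)), sM_pv_mul]; ring
  simp [Gam, Tri, this]

lemma Gs_comm (g h : E → ℝ) : Gs g h = Gs h g := by
  funext v; simp [Gs, add_comm]

lemma Gs_self (g : E → ℝ) (v : E) : Gs g g v = 2 * Gam g g v := by rw [Gs]; ring

/-- expansion around the Maxwellian -/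
lemma Gam_sM_add (Hg : Nice p Kg g) (v : E) :
    Gam (fun x => sM x + g x) (fun x => sM x + g x) v = -Lop g v + Gam g g v := by
  rw [Gam_add_left (nice_sM p) Hg ((nice_sM p).add Hg), Gam_add_right (nice_sM p) (nice_sM p) Hg,
    Gam_add_right Hg (nice_sM p) Hg, Gam_sM_sM, Lop, Gs]
  ring

/-! weak forms -/

theorem integrable_Gam_mul (Hg : Nice pN Kg g) (Hh : Nice pN Kh h) (Hf : Nice pN Kf f) :
    Integrable fun v => Gam g h v * f v := by
  have := (integrable_tri3 measurable_sM sM_wt13 Hg Hh Hf.measurable Hf.abs_le).integral_prod_left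
  exact this.congr (ae_of_all _ fun v => integral_mul_const (f v) (triI sM g h v))

theorem integral_Gam_mul (Hg : Nice pN Kg g) (Hh : Nice pN Kh h) (Hf : Nice pN Kf f) :
    ∫ v, Gam g h v * f v = ∫ q, triI sM g h q.1 q.2 * f q.1 ∂mu3 := by
  rw [mu3, integral_prod _
    (integrable_tri3 measurable_sM sM_wt13 Hg Hh Hf.measurable Hf.abs_le)]
  simp only [integral_mul_const]; rfl

theorem integrable_Gs_mul (Hg : Nice pN Kg g) (Hh : Nice pN Kh h) (Hf : Nice pN Kf f) :
    Integrable fun v => Gs g h v * f v := by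
  refine ((integrable_Gam_mul Hg Hh Hf).add (integrable_Gam_mul Hh Hg Hf)).congr
    (ae_of_all _ fun v => ?_)
  simp only [Gs, add_mul, Pi.add_apply]

theorem integrable_Lop_mul (Hg : Nice pN Kg g) (Hf : Nice pN Kf f) :
    Integrable fun v => Lop g v * f v := by
  refine (integrable_Gs_mul (nice_sM pN) Hg Hf).neg.congr (ae_of_all _ fun v => ?_)
  simp only [Lop, neg_mul, Pi.neg_apply]

lemma Inc_Sym_swp (g h : E → ℝ) (q : E × E × S2) : Inc (Sym g h) (swp q) = Inc (Sym g h) q := by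
  rw [Inc_swp]; congr 1; funext v w; simp only [Sym]; ring

lemma Sym_comm (g h : E → ℝ) : Sym g h = Sym h g := by
  funext v w; simp only [Sym]; ring

lemma integrable_half (Hg : Nice pN Kg g) (Hh : Nice pN Kh h) (Hf : Nice pN Kf f) :
    Integrable (fun q : E × E × S2 => ker3 q * Inc (Sym g h) q * (f q.1 * sM q.2.1)) mu3 := by
  have h1 := (integrable_tri3 measurable_sM sM_wt13 Hg Hh Hf.measurable Hf.abs_le).add
    (integrable_tri3 measurable_sM sM_wt13 Hh Hg Hf.measurable Hf.abs_le)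
  refine h1.congr (ae_of_all _ fun q => ?_)
  simp only [triI, ker3, Inc, Sym, Pi.add_apply]; ring

lemma integrable_one (Hg : Nice pN Kg g) (Hh : Nice pN Kh h) (Hf : Nice pN Kf f) :
    Integrable (fun q : E × E × S2 => ker3 q * Inc (Sym g h) q * Sym f sM q.1 q.2.1) mu3 := by
  have h1 := integrable_half Hg Hh Hf
  refine (h1.add (Integrable.swp h1)).congr (ae_of_all _ fun q => ?_)
  simp only [Pi.add_apply, ker3_swp, Inc_Sym_swp]
  simp only [Sym, swp]; ring

theorem integrable_sym (Hg : Nice pN Kg g) (Hh : Nice pN Kh h) (Hf : Nice pN Kf f) :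
    Integrable (fun q : E × E × S2 => ker3 q * Inc (Sym g h) q * Inc (Sym f sM) q) mu3 := by
  have h1 := integrable_one Hg Hh Hf
  refine (h1.add (Integrable.coll h1)).neg.congr (ae_of_all _ fun q => ?_)
  simp only [Pi.add_apply, Pi.neg_apply, ker3_coll, Inc_coll, Inc_eq (Sym f sM)]
  ring

/-- C1: the symmetrised weak form -/
theorem integral_Gs_mul (Hg : Nice pN Kg g) (Hh : Nice pN Kh h) (Hf : Nice pN Kf f) :
    ∫ v, Gs g h v * f v
      = -(1 / 4) * ∫ q, ker3 q * Inc (Sym g h) q * Inc (Sym f sM) q ∂mu3 := by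
  have h1 : ∫ v, Gs g h v * f v
      = ∫ q : E × E × S2, ker3 q * Inc (Sym g h) q * (f q.1 * sM q.2.1) ∂mu3 := by
    simp only [Gs, add_mul]
    rw [integral_add (integrable_Gam_mul Hg Hh Hf) (integrable_Gam_mul Hh Hg Hf),
      integral_Gam_mul Hg Hh Hf, integral_Gam_mul Hh Hg Hf, ← integral_add
      (integrable_tri3 measurable_sM sM_wt13 Hg Hh Hf.measurable Hf.abs_le)
      (integrable_tri3 measurable_sM sM_wt13 Hh Hg Hf.measurable Hf.abs_le)]
    congr 1; funext q
    simp only [triI, ker3, Inc, Sym]; ring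
  have h2 : ∫ q : E × E × S2, ker3 q * Inc (Sym g h) q * Sym f sM q.1 q.2.1 ∂mu3
      = 2 * ∫ q : E × E × S2, ker3 q * Inc (Sym g h) q * (f q.1 * sM q.2.1) ∂mu3 := by
    have h0 := integrable_half Hg Hh Hf
    rw [two_mul]
    nth_rewrite 2 [← integral_swp]
    rw [← integral_add (Integrable.swp h0) h0]
    congr 1; funext q
    simp only [ker3_swp, Inc_Sym_swp]
    simp only [Sym, swp]; ring
  have h3 : ∫ q, ker3 q * Inc (Sym g h) q * Inc (Sym f sM) q ∂mu3
      = -(2 * ∫ q : E × E × S2, ker3 q * Inc (Sym g h) q * Sym f sM q.1 q.2.1 ∂mu3) := by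
    have h0 := integrable_one Hg Hh Hf
    rw [two_mul]
    nth_rewrite 2 [← integral_coll]
    rw [← integral_add (Integrable.coll h0) h0, ← integral_neg]
    congr 1; funext q
    simp only [ker3_coll, Inc_coll, Inc_eq (Sym f sM)]
    ring
  rw [h1, h3, h2]; ring

theorem integral_Lop_mul (Hg : Nice pN Kg g) (Hf : Nice pN Kf f) :
    ∫ v, Lop g v * f v
      = (1 / 4) * ∫ q, ker3 q * Inc (Sym g sM) q * Inc (Sym f sM) q ∂mu3 := by
  simp only [Lop, neg_mul]
  rw [integral_neg, integral_Gs_mul (nice_sM pN) Hg Hf, Sym_comm sM g]; ring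

/-- the linearised operator is symmetric -/
theorem integral_Lop_symm (Hg : Nice pN Kg g) (Hf : Nice pN Kf f) :
    ∫ v, Lop g v * f v = ∫ v, Lop f v * g v := by
  rw [integral_Lop_mul Hg Hf, integral_Lop_mul Hf Hg]
  congr 2; funext q; ring

lemma DL_eq (Hf : Nice pN Kf f) :
    DL f = ENNReal.ofReal (∫ q, ker3 q * Inc (Sym f sM) q * Inc (Sym f sM) q ∂mu3) := by
  rw [ofReal_integral_eq_lintegral_ofReal (integrable_sym Hf (nice_sM pN) Hf)
    (ae_of_all _ fun q => by
      have := ker3_nonneg q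
      simp only [Pi.zero_apply]
      rw [mul_assoc]; exact mul_nonneg this (mul_self_nonneg _)), DL]
  congr 1; funext q; congr 1; ring

theorem DL_lt_top (Hf : Nice pN Kf f) : DL f < ∞ := by
  rw [DL_eq Hf]; exact ENNReal.ofReal_lt_top

lemma Dis_nonneg (f : E → ℝ) : 0 ≤ Dis f := by unfold Dis; positivity

theorem DL_eq_ofReal (Hf : Nice pN Kf f) : DL f = ENNReal.ofReal (4 * Dis f) := by
  rw [Dis, mul_div_cancel₀ _ (by norm_num), ENNReal.ofReal_toReal (DL_lt_top Hf).ne]

/-- the dissipation is the quadratic form of the linearised operator -/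
theorem Dis_eq (Hf : Nice pN Kf f) : Dis f = ∫ v, Lop f v * f v := by
  rw [integral_Lop_mul Hf Hf, Dis, DL_eq Hf, ENNReal.toReal_ofReal (integral_nonneg fun q => by
      have := ker3_nonneg q
      simp only [Pi.zero_apply]
      rw [mul_assoc]; exact mul_nonneg this (mul_self_nonneg _))]
  ring

/-- functions phi sM with phi(v) + phi(w) conserved are collision invariants -/
theorem integral_Gs_mul_inv (Hg : Nice pN Kg g) (Hh : Nice pN Kh h) {φ : E → ℝ}
    (Hf : Nice pN Kf fun v => φ v * sM v)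
    (hφ : ∀ v w (o : S2), φ (pv v w o) + φ (pw v w o) = φ v + φ w) :
    ∫ v, Gs g h v * (φ v * sM v) = 0 := by
  rw [integral_Gs_mul Hg Hh Hf]
  have : ∀ q, Inc (Sym (fun v => φ v * sM v) sM) q = 0 := by
    intro q
    simp only [Inc, Sym]
    have h1 := sM_pv_mul q.1 q.2.1 q.2.2
    have h2 := hφ q.1 q.2.1 q.2.2
    linear_combination (φ (pv q.1 q.2.1 q.2.2) + φ (pw q.1 q.2.1 q.2.2)) * h1
      + sM q.1 * sM q.2.1 * h2
  simp [this]

/-- L kills the collision invariants -/
theorem Lop_inv {φ : E → ℝ} (Hf : Nice p Kf fun v => φ v * sM v)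
    (hφ : ∀ v w (o : S2), φ (pv v w o) + φ (pw v w o) = φ v + φ w) (v : E) :
    Lop (fun v => φ v * sM v) v = 0 := by
  rw [Lop, Gs, Gam, Gam, Tri, Tri, ← integral_add (integrable_gamI (nice_sM p) Hf v)
    (integrable_gamI Hf (nice_sM p) v), neg_eq_zero]
  have : ∀ q, triI sM sM (fun v => φ v * sM v) v q + triI sM (fun v => φ v * sM v) sM v q = 0 := by
    intro q
    simp only [triI]
    have h1 := sM_pv_mul v q.1 q.2
    have h2 := hφ v q.1 q.2
    linear_combination ker (v - q.1) q.2 * sM q.1 * ((φ (pv v q.1 q.2) + φ (pw v q.1 q.2)) * h1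
      + sM v * sM q.1 * h2)
  simp [this]

lemma inv_coord (i : Ix) (v w : E) (o : S2) : pv v w o i + pw v w o i = v i + w i := by
  have := congrArg (fun x : E => x i) (pv_add_pw v w o)
  simpa using this

/-- sign lemma: the collision term of the positive part tested with the negative part -/
theorem integral_Gam_posPart_nonneg {G : E → ℝ} {K : ℝ} (HG : Nice pN K G) :
    0 ≤ ∫ v, Gam (fun x => max (G x) 0) (fun x => max (G x) 0) v * max (-G v) 0 := by
  rw [integral_Gam_mul HG.posPart HG.posPart HG.neg.posPart]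
  refine integral_nonneg fun q => ?_
  have h0 : max (G q.1) 0 * max (-G q.1) 0 = 0 := by
    rcases le_total (G q.1) 0 with h | h
    · rw [max_eq_right h, zero_mul]
    · rw [max_eq_right (neg_nonpos.2 h), mul_zero]
  have h1 := ker_nonneg (q.1 - q.2.1) q.2.2
  have h2 := sM_pos q.2.1
  have h3 : triI sM (fun x => max (G x) 0) (fun x => max (G x) 0) q.1 q.2 * max (-G q.1) 0 =
      ker (q.1 - q.2.1) q.2.2 * sM q.2.1 * (max (G (pw q.1 q.2.1 q.2.2)) 0 *
        max (G (pv q.1 q.2.1 q.2.2)) 0) * max (-G q.1) 0 := by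
    simp only [triI]
    linear_combination (-(ker (q.1 - q.2.1) q.2.2 * sM q.2.1 * max (G q.2.1) 0)) * h0
  simp only [Pi.zero_apply]
  rw [h3]; positivity

/-- the inequality behind positivity: G = sM + g, n = negative part of G -/
theorem neg_integral_Gam_negPart_le (Hg : Nice pN Kg g) {n : E → ℝ}
    (hn : n = fun v => max (-(sM v + g v)) 0) :
    -∫ v, Gam (fun x => sM x + g x) (fun x => sM x + g x) v * n v
      ≤ -Dis n + (∫ v, Gs n g v * n v) + (1 / 2) * ∫ v, Gs n n v * n v := by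
  have HG := (nice_sM pN).add Hg
  have Hn : Nice pN _ n := hn ▸ HG.neg.posPart
  have h0 := integral_Gam_posPart_nonneg HG
  have e1 : (fun x => max (sM x + g x) 0) = fun x => (sM x + g x) + n x := by
    funext x; rw [hn]
    rcases le_total (sM x + g x) 0 with h | h
    · simp only; rw [max_eq_right h, max_eq_left (neg_nonneg.2 h)]; ring
    · simp only; rw [max_eq_left h, max_eq_right (neg_nonpos.2 h)]; ring
  have e2 : ∀ v, max (-(sM v + g v)) 0 = n v := fun v => by rw [hn]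
  simp only [e1, e2] at h0
  have e3 : ∀ v, Gam (fun x => (sM x + g x) + n x) (fun x => (sM x + g x) + n x) v * n v =
      Gam (fun x => sM x + g x) (fun x => sM x + g x) v * n v +
        (-(Lop n v * n v) + Gs n g v * n v + (1 / 2) * (Gs n n v * n v)) := by
    intro v
    rw [Gam_add_left HG Hn (HG.add Hn), Gam_add_right HG HG Hn, Gam_add_right Hn HG Hn,
      Gam_add_left (nice_sM pN) Hg Hn, Gam_add_right Hn (nice_sM pN) Hg, Lop, Gs, Gs, Gs]
    ring
  simp only [e3] at h0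
  have i1 : Integrable fun v => -(Lop n v * n v) := (integrable_Lop_mul Hn Hn).neg
  have i2 := integrable_Gs_mul Hn Hg Hn
  have i3 := (integrable_Gs_mul Hn Hn Hn).const_mul (1 / 2)
  have i12 : Integrable fun v => -(Lop n v * n v) + Gs n g v * n v := i1.add i2
  have i123 : Integrable fun v => -(Lop n v * n v) + Gs n g v * n v
      + 1 / 2 * (Gs n n v * n v) := i12.add i3
  rw [integral_add (integrable_Gam_mul HG HG Hn) i123,
    integral_add i12 i3, integral_add i1 i2, integral_neg, integral_const_mul,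
    ← Dis_eq Hn] at h0
  linarith

end Pool.Agent.BoltzD.Coll

end
end MrgPart0

-- ======== part 1: formerly Pool.Agent.BoltzD.Coll.C2
section MrgPart1

/-!
C2: the two-particle increment of g h_* is controlled by the anisotropic norm of g.
-/

open MeasureTheory Real Set
open scoped ENNReal RealInnerProductSpace

noncomputable section

namespace Pool.Agent.BoltzD.Coll

variable [Dim]

/-- polynomial weight -/
def b0 (w : E) : ℝ := ((1 + ‖w‖) ^ (2 * pN))⁻¹

lemma b0_pos (w : E) : 0 < b0 w := by unfold b0; positivity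

@[fun_prop] lemma measurable_b0 : Measurable b0 := by unfold b0; fun_prop

@[fun_prop] lemma Measurable.jk {α : Type*} [MeasurableSpace α] {a c : α → E}
    (ha : Measurable a) (hc : Measurable c) : Measurable fun x => jk (a x) (c x) := by
  unfold Coll.jk
  exact Measurable.mul (Measurable.pow_const (by fun_prop) _) (Measurable.pow_const (by fun_prop) _)

/-- weight term -/
def T1 (g : E → ℝ) (p : E × E × S2) : ℝ :=
  ker3 p * min 1 |⟪p.1 - p.2.1, (p.2.2 : E)⟫| * |b0 p.2.1| * g p.1 ^ 2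

/-- jump term -/
def T2 (g : E → ℝ) (p : E × E × S2) : ℝ :=
  if |⟪p.1 - p.2.1, (p.2.2 : E)⟫| < 1 then
    ker3 p * (g (pv p.1 p.2.1 p.2.2) - g p.1) ^ 2 * b0 p.2.1 else 0

lemma T1_nonneg (g : E → ℝ) (p : E × E × S2) : 0 ≤ T1 g p := by
  have := ker3_nonneg p
  unfold T1; positivity

lemma T2_nonneg (g : E → ℝ) (p : E × E × S2) : 0 ≤ T2 g p := by
  have := ker3_nonneg p
  have := b0_pos p.2.1
  unfold T2; positivity

lemma measurable_T1 {g : E → ℝ} (hg : Measurable g) : Measurable (T1 g) := by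
  unfold T1; fun_prop

lemma measurable_T2 {g : E → ℝ} (hg : Measurable g) : Measurable (T2 g) := by
  unfold T2
  exact Measurable.ite (measurableSet_lt (by fun_prop) (by fun_prop)) (by fun_prop) (by fun_prop)

lemma sq_le_b0 {x K : ℝ} {w : E} (h : (1 + ‖w‖) ^ pN * |x| ≤ K) : x ^ 2 ≤ K ^ 2 * b0 w := by
  rw [b0, ← div_eq_mul_inv, le_div_iff₀ (wt_pos w _)]
  calc x ^ 2 * (1 + ‖w‖) ^ (2 * pN) = ((1 + ‖w‖) ^ pN * |x|) ^ 2 := by
        rw [mul_pow, sq_abs]; ring
    _ ≤ K ^ 2 := by gcongr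

lemma inc_sq_le (g : E → ℝ) {h : E → ℝ} {K : ℝ} (H : Nice pN K h) (p : E × E × S2) :
    ker3 p * Inc (fun v w => g v * h w) p ^ 2
      ≤ 2 * K ^ 2 * (T1 g (coll p) + T1 g p + T2 g p) := by
  obtain ⟨v, w, o⟩ := p
  have hk := ker3_nonneg (v, w, o)
  have e1 : T1 g (coll (v, w, o)) = ker3 (v, w, o) * min 1 |⟪v - w, (o : E)⟫| * b0 (pw v w o) *
      g (pv v w o) ^ 2 := by
    rw [T1, ker3_coll]
    simp only [coll, inner_pv_sub_pw, abs_neg, abs_of_pos (b0_pos _)]
  have e2 : T1 g (v, w, o) = ker3 (v, w, o) * min 1 |⟪v - w, (o : E)⟫| * b0 w * g v ^ 2 := by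
    simp only [T1, abs_of_pos (b0_pos _)]
  have a1 := sq_le_b0 (H.1 w)
  have a2 := sq_le_b0 (H.1 (pw v w o))
  rw [e1, e2, T2]
  simp only [Inc]
  set k := ker3 (v, w, o)
  set r := |⟪v - w, (o : E)⟫| with hr
  have hb := b0_pos w
  have hb' := b0_pos (pw v w o)
  by_cases hr1 : r < 1
  · rw [if_pos hr1, min_eq_right hr1.le]
    have hr0 : 0 ≤ r := abs_nonneg _
    have e3 : ‖w - pw v w o‖ = r := by rw [norm_sub_rev]; exact norm_pw_sub v w o
    have a3 := sq_le_b0 (H.lip' (pw v w o) w (e3 ▸ hr1.le))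
    rw [e3] at a3
    have a4 : (h w - h (pw v w o)) ^ 2 ≤ K ^ 2 * (r * b0 (pw v w o)) := by
      refine a3.trans ?_
      rw [mul_pow, mul_assoc]
      exact mul_le_mul_of_nonneg_left (mul_le_mul_of_nonneg_right (by nlinarith) hb'.le)
        (sq_nonneg K)
    have a5 : (g (pv v w o) * h (pw v w o) - g v * h w) ^ 2 ≤
        2 * ((g (pv v w o) - g v) ^ 2 * h w ^ 2) +
          2 * (g (pv v w o) ^ 2 * (h w - h (pw v w o)) ^ 2) := by
      nlinarith [sq_nonneg ((g (pv v w o) - g v) * h w + g (pv v w o) * (h w - h (pw v w o)))]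
    have a6 : (g (pv v w o) * h (pw v w o) - g v * h w) ^ 2 ≤
        2 * ((g (pv v w o) - g v) ^ 2 * (K ^ 2 * b0 w)) +
          2 * (g (pv v w o) ^ 2 * (K ^ 2 * (r * b0 (pw v w o)))) := a5.trans (by gcongr)
    have a7 : 0 ≤ 2 * K ^ 2 * (k * r * b0 w * g v ^ 2) := by positivity
    nlinarith [mul_le_mul_of_nonneg_left a6 hk]
  · rw [if_neg hr1, min_eq_left (not_lt.1 hr1)]
    have a5 : (g (pv v w o) * h (pw v w o) - g v * h w) ^ 2 ≤
        2 * (g (pv v w o) ^ 2 * h (pw v w o) ^ 2) + 2 * (g v ^ 2 * h w ^ 2) := by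
      nlinarith [sq_nonneg (g (pv v w o) * h (pw v w o) + g v * h w)]
    have a6 : (g (pv v w o) * h (pw v w o) - g v * h w) ^ 2 ≤
        2 * (g (pv v w o) ^ 2 * (K ^ 2 * b0 (pw v w o))) + 2 * (g v ^ 2 * (K ^ 2 * b0 w)) :=
      a5.trans (by gcongr)
    nlinarith [mul_le_mul_of_nonneg_left a6 hk]

lemma lintegral_T1_le {g : E → ℝ} (hg : Measurable g) :
    ∫⁻ p, ENNReal.ofReal (T1 g p) ∂mu3 ≤ ENNReal.ofReal cW * NW g := by
  have hc := cW_pos
  rw [mu3, lintegral_prod _ (measurable_T1 hg).ennreal_ofReal.aemeasurable, NW,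
    ← lintegral_const_mul _ (by fun_prop)]
  refine lintegral_mono fun v => ?_
  have h1 : ∀ q : E × S2, ENNReal.ofReal (T1 g (v, q)) = ENNReal.ofReal
      (ker (v - q.1) q.2 * min 1 |⟪v - q.1, (q.2 : E)⟫| * |b0 q.1|) * ENNReal.ofReal (g v ^ 2) :=
    fun q => ENNReal.ofReal_mul' (sq_nonneg _)
  simp only [h1]
  rw [lintegral_mul_const _ (by fun_prop)]
  refine (mul_le_mul_left (lintegral_ker_min_le (Ka := 1) measurable_b0 (fun w => ?_) v) _).trans
    (le_of_eq ?_)
  · rw [abs_of_pos (b0_pos w), b0, ← div_eq_mul_inv, div_le_one (wt_pos w _)]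
    gcongr
    · linarith [norm_nonneg w]
    · unfold pN; omega
  · rw [← ENNReal.ofReal_mul (by positivity), ← ENNReal.ofReal_mul hc.le]
    congr 1; ring

lemma carleman_weight (v : E) (o : S2) {ι : E2 →ₗᵢ[ℝ] E} (h0 : ∀ y, ⟪(o : E), ι y⟫ = 0)
    {y0 : E2} (hy0 : v = ⟪(o : E), v⟫ • (o : E) + ι y0) {r : ℝ} (hr : |r| < 1) (y : E2) :
    ‖r • (o : E) + ι y‖ ^ (59 / 2 : ℝ) * b0 (v - (r • (o : E) + ι y)) ≤
      2 ^ (dd + 1) * (1 + ‖v‖) ^ (59 / 2 : ℝ) *
        (1 + ⟪v, (o : E)⟫ ^ 2) ^ (-(dd / 2 + 1 / 4) : ℝ) * ((1 + ‖y0 - y‖) ^ dd)⁻¹ := by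
  set w := v - (r • (o : E) + ι y) with hw
  set t := ⟪v, (o : E)⟫ with ht
  have e1 : w = (t - r) • (o : E) + ι (y0 - y) := by
    rw [hw, ht, real_inner_comm]
    nth_rewrite 1 [hy0]
    rw [map_sub]; module
  have e2 := norm_sq_slice (norm_coe o) h0 (t - r) (y0 - y)
  rw [← e1] at e2
  have a1 : |t - r| ≤ ‖w‖ := abs_le_of_sq_le_sq' (by nlinarith [sq_nonneg ‖y0 - y‖]) (norm_nonneg _)
    |> abs_le.2
  have a2 : ‖y0 - y‖ ≤ ‖w‖ :=
    (abs_le_of_sq_le_sq' (by nlinarith [sq_nonneg (t - r)]) (norm_nonneg _)).2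
  have a3 : ‖r • (o : E) + ι y‖ ^ (59 / 2 : ℝ) ≤ (1 + ‖v‖) ^ (59 / 2 : ℝ) * (1 + ‖w‖) ^ 30 := by
    have : r • (o : E) + ι y = v - w := by rw [hw, sub_sub_cancel]
    rw [this]
    calc ‖v - w‖ ^ (59 / 2 : ℝ) ≤ ((1 + ‖v‖) * (1 + ‖w‖)) ^ (59 / 2 : ℝ) := by
          gcongr; linarith [wt_le_mul v w]
      _ = (1 + ‖v‖) ^ (59 / 2 : ℝ) * (1 + ‖w‖) ^ (59 / 2 : ℝ) :=
          Real.mul_rpow (by positivity) (by positivity)
      _ ≤ _ := by
          gcongr
          rw [← Real.rpow_natCast]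
          exact Real.rpow_le_rpow_of_exponent_le (by linarith [norm_nonneg w]) (by norm_num)
  have a4 : (1 + t ^ 2) ^ (dd / 2 + 1 / 4 : ℝ) ≤ 2 ^ (dd + 1) * (1 + ‖w‖) ^ (dd + 1) := by
    have b2 : 1 + |t| ≤ 2 * (1 + ‖w‖) := by
      have := abs_add_le (t - r) r
      rw [sub_add_cancel] at this
      linarith [norm_nonneg w]
    have b3 : 1 + t ^ 2 ≤ (1 + |t|) ^ 2 := by nlinarith [sq_abs t, abs_nonneg t]
    calc _ ≤ ((1 + |t|) ^ 2) ^ (dd / 2 + 1 / 4 : ℝ) := by gcongr
      _ = (1 + |t|) ^ (dd + 1 / 2 : ℝ) := by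
          rw [← Real.rpow_natCast, ← Real.rpow_mul (by positivity)]
          congr 1; push_cast; ring
      _ ≤ (1 + |t|) ^ ((dd + 1 : ℕ) : ℝ) :=
          Real.rpow_le_rpow_of_exponent_le (by linarith [abs_nonneg t]) (by push_cast; linarith)
      _ ≤ (2 * (1 + ‖w‖)) ^ (dd + 1) := by rw [Real.rpow_natCast]; gcongr
      _ = _ := mul_pow _ _ _
  have hp : 0 < (1 + t ^ 2) ^ (dd / 2 + 1 / 4 : ℝ) := by positivity
  have hw1 : 0 < 1 + ‖w‖ := by positivity
  have hb : b0 w ≤ ((1 + ‖w‖) ^ (30 + (dd + 1) + dd))⁻¹ :=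
    inv_anti₀ (by positivity)
      (pow_le_pow_right₀ (by linarith [norm_nonneg w]) (by unfold pN; omega))
  rw [Real.rpow_neg (by positivity)]
  calc _ ≤ (1 + ‖v‖) ^ (59 / 2 : ℝ) * (1 + ‖w‖) ^ 30 * ((1 + ‖w‖) ^ (30 + (dd + 1) + dd))⁻¹ := by
        have := b0_pos w
        gcongr
    _ = 2 ^ (dd + 1) * (1 + ‖v‖) ^ (59 / 2 : ℝ) * (2 ^ (dd + 1) * (1 + ‖w‖) ^ (dd + 1))⁻¹ *
        ((1 + ‖w‖) ^ dd)⁻¹ := by
        field_simp; ring
    _ ≤ _ := by gcongr

lemma jk_line (v : E) (o : S2) {r : ℝ} (hr : r ≠ 0) :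
    |r| ^ (dd - 1) * jk v (-(r • (o : E))) = (1 + ‖v‖) ^ (59 / 2 : ℝ) *
      (1 + ⟪v, (o : E)⟫ ^ 2) ^ (-(dd / 2 + 1 / 4) : ℝ) * |r| ^ (-(3 / 2) : ℝ) := by
  have hd := two_le_dd
  have h1 : 0 < |r| := abs_pos.2 hr
  have h2 : ‖-(r • (o : E))‖ ^ 2 + ⟪v, -(r • (o : E))⟫ ^ 2 = |r| ^ 2 * (1 + ⟪v, (o : E)⟫ ^ 2) := by
    rw [norm_neg, norm_smul, norm_coe, inner_neg_right, inner_smul_right, Real.norm_eq_abs,
      sq_abs, mul_one, sq_abs]; ring
  rw [jk, h2, Real.mul_rpow (by positivity) (by positivity), ← Real.rpow_natCast |r| 2,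
    ← Real.rpow_mul h1.le, ← Real.rpow_natCast |r|,
    show (-(3 / 2) : ℝ) = (dd - 1 : ℕ) + (2 : ℕ) * (-(dd / 2 + 1 / 4)) by
      rw [Nat.cast_sub (by omega)]; push_cast; ring, Real.rpow_add h1]
  ring

lemma exists_T2 : ∃ c : ℝ, 0 < c ∧ ∀ g : E → ℝ, Measurable g →
    ∫⁻ p, ENNReal.ofReal (T2 g p) ∂mu3 ≤ ENNReal.ofReal c * NJ g := by
  set B := ∫⁻ y : E2, ENNReal.ofReal (((1 + ‖y‖) ^ dd)⁻¹) with hB
  have hB' : B = ENNReal.ofReal B.toReal :=
    (ENNReal.ofReal_toReal (wt_lintegral_lt_top volume dd (by have := two_le_dd; simp; omega)).ne).symm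
  refine ⟨4 * 2 ^ (dd + 1) * B.toReal + 1, by positivity, fun g hg => ?_⟩
  have hm := (measurable_T2 hg).ennreal_ofReal
  have hJ : Measurable fun q : E × E => (Metric.ball (0 : E) 1).indicator
      (fun z => ENNReal.ofReal (jk q.1 z * (g (q.1 + z) - g q.1) ^ 2)) q.2 := by
    have : (fun q : E × E => (Metric.ball (0 : E) 1).indicator
      (fun z => ENNReal.ofReal (jk q.1 z * (g (q.1 + z) - g q.1) ^ 2)) q.2) =
      (Prod.snd ⁻¹' Metric.ball (0 : E) 1).indicator
        fun q : E × E => ENNReal.ofReal (jk q.1 q.2 * (g (q.1 + q.2) - g q.1) ^ 2) := by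
      funext q; simp [indicator]
    rw [this]
    exact Measurable.indicator (by fun_prop) (measurable_snd measurableSet_ball)
  rw [mu3, lintegral_prod _ hm.aemeasurable, NJ]
  simp only [← lintegral_indicator measurableSet_ball]
  rw [← lintegral_const_mul _ hJ.lintegral_prod_right']
  refine lintegral_mono fun v => ?_
  set F : E → ℝ≥0∞ := (Metric.ball (0 : E) 1).indicator
      (fun z => ENNReal.ofReal (jk v z * (g (v + z) - g v) ^ 2)) with hF
  have hFm : Measurable F := hJ.comp (f := fun z => (v, z)) (by fun_prop)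
  have hFm' : Measurable fun z => F (-z) := hFm.comp measurable_neg
  have hm' : Measurable fun q : E × S2 => ENNReal.ofReal (T2 g (v, q)) := hm.comp (by fun_prop)
  rw [lintegral_mu2' _ hm']
  calc _ ≤ ∫⁻ o : S2, ENNReal.ofReal (2 * 2 ^ (dd + 1) * B.toReal) *
        (∫⁻ r : ℝ, ENNReal.ofReal (|r| ^ (dd - 1)) * F (-(r • (o : E)))) ∂sph := by
        refine lintegral_mono fun o => ?_
        obtain ⟨ι, h0, hs, hmp⟩ := exists_slice o (norm_coe o)
        obtain ⟨y0, hy0⟩ := hs v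
        have hm4 : Measurable fun r : ℝ => ENNReal.ofReal (|r| ^ (dd - 1)) * F (-(r • (o : E))) :=
          Measurable.mul (by fun_prop) (hFm'.comp (by fun_prop))
        rw [lintegral_carleman v o hmp (fun w => ENNReal.ofReal (T2 g (v, w, o)))
          (hm'.comp (f := fun w => (w, o)) (by fun_prop)), ← lintegral_const_mul _ hm4]
        refine lintegral_mono fun r => ?_
        have e0 : ∀ y, ⟪v - (v - (r • (o : E) + ι y)), (o : E)⟫ = r := fun y => by
          rw [sub_sub_cancel, real_inner_comm, inner_slice (norm_coe o) h0]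
        by_cases hr : |r| < 1
        · have e1 : ENNReal.ofReal (|r| ^ (dd - 1)) * F (-(r • (o : E))) = ENNReal.ofReal
              ((1 + ‖v‖) ^ (59 / 2 : ℝ) * (1 + ⟪v, (o : E)⟫ ^ 2) ^ (-(dd / 2 + 1 / 4) : ℝ) *
                |r| ^ (-(3 / 2) : ℝ) * (g (v - r • (o : E)) - g v) ^ 2) := by
            rcases eq_or_ne r 0 with rfl | hr0
            · simp [hF]
            rw [hF, indicator_of_mem (by simpa [norm_smul] using hr),
              ← ENNReal.ofReal_mul (by positivity), ← mul_assoc, jk_line v o hr0, sub_eq_add_neg v]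
          rw [e1]
          set X := (1 + ‖v‖) ^ (59 / 2 : ℝ) * (1 + ⟪v, (o : E)⟫ ^ 2) ^ (-(dd / 2 + 1 / 4) : ℝ) *
                |r| ^ (-(3 / 2) : ℝ) * (g (v - r • (o : E)) - g v) ^ 2 with hX
          have hX0 : 0 ≤ X := by positivity
          calc _ ≤ ∫⁻ y : E2, ENNReal.ofReal (2 * 2 ^ (dd + 1) * X) *
                ENNReal.ofReal (((1 + ‖y0 - y‖) ^ dd)⁻¹) := by
                refine lintegral_mono fun y => ?_
                rw [← ENNReal.ofReal_mul (by positivity)]
                refine ENNReal.ofReal_le_ofReal ?_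
                simp only [T2, ker3, ker, pv_carleman v o h0, sub_sub_cancel]
                rw [real_inner_comm, inner_slice (norm_coe o) h0, if_pos hr]
                have h1 := carleman_weight v o h0 hy0 hr y
                calc _ = 2 * (‖r • (o : E) + ι y‖ ^ (59 / 2 : ℝ) * b0 (v - (r • (o : E) + ι y))) *
                      (|r| ^ (-(3 / 2) : ℝ) * (g (v - r • (o : E)) - g v) ^ 2) := by ring
                  _ ≤ 2 * (2 ^ (dd + 1) * (1 + ‖v‖) ^ (59 / 2 : ℝ) *
                      (1 + ⟪v, (o : E)⟫ ^ 2) ^ (-(dd / 2 + 1 / 4) : ℝ) *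
                      ((1 + ‖y0 - y‖) ^ dd)⁻¹) *
                      (|r| ^ (-(3 / 2) : ℝ) * (g (v - r • (o : E)) - g v) ^ 2) := by gcongr
                  _ = _ := by rw [hX]; ring
            _ = _ := by
                rw [lintegral_const_mul _ (by fun_prop), lintegral_sub_left_eq_self
                  (fun y : E2 => ENNReal.ofReal (((1 + ‖y‖) ^ dd)⁻¹)) y0, ← hB, hB',
                  ← ENNReal.ofReal_mul (by positivity), ← ENNReal.ofReal_mul (by positivity),
                  ENNReal.toReal_ofReal ENNReal.toReal_nonneg]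
                congr 1; ring
        · simp only [T2, e0, if_neg hr]
          simp
    _ = ENNReal.ofReal (2 * 2 ^ (dd + 1) * B.toReal) * (2 * ∫⁻ z, F z) := by
        have hm3 : Measurable fun p : S2 × ℝ =>
            ENNReal.ofReal (|p.2| ^ (dd - 1)) * F (-(p.2 • (p.1 : E))) :=
          Measurable.mul (by fun_prop) (hFm'.comp (by fun_prop))
        rw [lintegral_const_mul _ hm3.lintegral_prod_right',
          lintegral_polar_line (fun z => F (-z)) hFm', lintegral_neg_eq_self]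
    _ ≤ _ := by
        rw [← mul_assoc]
        gcongr
        rw [show (2 : ℝ≥0∞) = ENNReal.ofReal 2 by simp, ← ENNReal.ofReal_mul (by positivity)]
        exact ENNReal.ofReal_le_ofReal (by linarith)

theorem c2 : C2Stmt := by
  obtain ⟨c, hc, h2⟩ := exists_T2
  have hc' := cW_pos
  refine ⟨2 * (2 * cW + c), by positivity, fun g h K hg H => ?_⟩
  have m1 := (measurable_T1 hg).ennreal_ofReal
  have m2 := (measurable_T2 hg).ennreal_ofReal
  have m3 : Measurable fun p => ENNReal.ofReal (T1 g (coll p)) := m1.comp measurable_coll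
  calc _ ≤ ∫⁻ p, ENNReal.ofReal (2 * K ^ 2) * (ENNReal.ofReal (T1 g (coll p)) +
        ENNReal.ofReal (T1 g p) + ENNReal.ofReal (T2 g p)) ∂mu3 := by
        refine lintegral_mono fun p => ?_
        rw [← ENNReal.ofReal_add (T1_nonneg _ _) (T1_nonneg _ _), ← ENNReal.ofReal_add
          (add_nonneg (T1_nonneg _ _) (T1_nonneg _ _)) (T2_nonneg _ _),
          ← ENNReal.ofReal_mul (by positivity)]
        exact ENNReal.ofReal_le_ofReal (inc_sq_le g H p)
    _ = ENNReal.ofReal (2 * K ^ 2) * ((∫⁻ p, ENNReal.ofReal (T1 g p) ∂mu3) +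
        (∫⁻ p, ENNReal.ofReal (T1 g p) ∂mu3) + ∫⁻ p, ENNReal.ofReal (T2 g p) ∂mu3) := by
        have m4 : Measurable fun p => ENNReal.ofReal (T1 g (coll p)) +
          ENNReal.ofReal (T1 g p) + ENNReal.ofReal (T2 g p) := (m3.add m1).add m2
        rw [lintegral_const_mul _ m4, lintegral_add_right _ m2,
          lintegral_add_right _ m1, lintegral_coll _ m1]
    _ ≤ ENNReal.ofReal (2 * K ^ 2) * (ENNReal.ofReal cW * NL g + ENNReal.ofReal cW * NL g +
        ENNReal.ofReal c * NL g) := by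
        have a1 : ENNReal.ofReal cW * NW g ≤ ENNReal.ofReal cW * NL g := by
          gcongr; exact le_add_self
        have a2 : ENNReal.ofReal c * NJ g ≤ ENNReal.ofReal c * NL g := by
          gcongr; exact le_self_add
        gcongr
        exacts [(lintegral_T1_le hg).trans a1, (lintegral_T1_le hg).trans a1, (h2 g hg).trans a2]
    _ = _ := by
        rw [← add_mul, ← add_mul, ← mul_assoc, ← ENNReal.ofReal_add hc'.le hc'.le,
          ← ENNReal.ofReal_add (by positivity) hc.le, ← ENNReal.ofReal_mul (by positivity)]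
        congr 2; ring

end Pool.Agent.BoltzD.Coll

end
end MrgPart1

-- ======== part 2: formerly Pool.Agent.BoltzD.Pos.Gr
section MrgPart2

-- ======== part 0: formerly Pool.Agent.BoltzD.Coll.Tri
section MrgPart0

/-!
The trilinear estimate, the weight estimate and the positivity inequality, from C3.
-/

open MeasureTheory Real Set
open scoped ENNReal RealInnerProductSpace

noncomputable section

namespace Pool.Agent.BoltzD.Coll

variable [Dim]

omit [Dim] in
lemma abs_integral_le_sqrt {α : Type*} [MeasurableSpace α] {μ : Measure α} {k F G : α → ℝ}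
    (hk : Measurable k) (hF : Measurable F) (hG : Measurable G) (h0 : ∀ x, 0 ≤ k x) {A B : ℝ}
    (hA0 : 0 ≤ A) (hB0 : 0 ≤ B) (hA : ∫⁻ x, ENNReal.ofReal (k x * F x ^ 2) ∂μ ≤ ENNReal.ofReal A)
    (hB : ∫⁻ x, ENNReal.ofReal (k x * G x ^ 2) ∂μ ≤ ENNReal.ofReal B) :
    |∫ x, k x * F x * G x ∂μ| ≤ √A * √B := by
  have h1 := ENNReal.lintegral_mul_le_Lp_mul_Lq μ Real.HolderConjugate.two_two
    (f := fun x => ENNReal.ofReal (√(k x) * |F x|)) (g := fun x => ENNReal.ofReal (√(k x) * |G x|))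
    (by fun_prop) (by fun_prop)
  have e : ∀ (H : α → ℝ) x, ENNReal.ofReal (√(k x) * |H x|) ^ (2 : ℝ)
      = ENNReal.ofReal (k x * H x ^ 2) := by
    intro H x
    rw [ENNReal.ofReal_rpow_of_nonneg (by positivity) (by norm_num), Real.rpow_two, mul_pow,
      Real.sq_sqrt (h0 x), sq_abs]
  simp only [e, Pi.mul_apply] at h1
  rw [← ENNReal.ofReal_le_ofReal_iff (by positivity), ← Real.enorm_eq_ofReal_abs]
  refine (enorm_integral_le_lintegral_enorm _).trans (le_trans (le_of_eq ?_) (h1.trans ?_))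
  · refine lintegral_congr fun x => ?_
    rw [Real.enorm_eq_ofReal_abs, ← ENNReal.ofReal_mul (by positivity), abs_mul, abs_mul,
      abs_of_nonneg (h0 x)]
    congr 1
    linear_combination (-(|F x| * |G x|)) * Real.mul_self_sqrt (h0 x)
  · rw [ENNReal.ofReal_mul (by positivity), Real.sqrt_eq_rpow, Real.sqrt_eq_rpow,
      ← ENNReal.ofReal_rpow_of_nonneg hA0 (by norm_num),
      ← ENNReal.ofReal_rpow_of_nonneg hB0 (by norm_num)]
    gcongr

variable {p : ℕ} {K Kg Kh Kf : ℝ} {g h f : E → ℝ}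

lemma integrable_wt_sq (Hg : Nice pN K g) (m : ℕ) (hm : m ≤ 60) :
    Integrable fun v => (1 + ‖v‖) ^ m * g v ^ 2 := by
  have hc := Hg.continuous
  refine ((integrable_wt (dd + 1) (by norm_num)).const_mul (K ^ 2)).mono'
    (Continuous.aestronglyMeasurable (by fun_prop)) (ae_of_all _ fun v => ?_)
  rw [Real.norm_of_nonneg (by positivity), ← div_eq_mul_inv, le_div_iff₀ (wt_pos v _)]
  calc (1 + ‖v‖) ^ m * g v ^ 2 * (1 + ‖v‖) ^ (dd + 1) = (1 + ‖v‖) ^ (m + (dd + 1)) * g v ^ 2 := by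
        ring
    _ ≤ (1 + ‖v‖) ^ (2 * pN) * g v ^ 2 := by
        gcongr
        · linarith [norm_nonneg v]
        · unfold pN; omega
    _ = ((1 + ‖v‖) ^ pN * |g v|) ^ 2 := by rw [mul_pow, sq_abs]; ring
    _ ≤ K ^ 2 := by gcongr; exact Hg.1 v

lemma integrable_sq (Hg : Nice pN K g) : Integrable fun v => g v ^ 2 := by
  simpa using integrable_wt_sq Hg 0 (by norm_num)

lemma L2L_eq (Hg : Nice pN K g) : L2L g = ENNReal.ofReal (∫ v, g v ^ 2) :=
  (ofReal_integral_eq_lintegral_ofReal (integrable_sq Hg) (ae_of_all _ fun _ => sq_nonneg _)).symm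

lemma NL_le (h3 : C3Stmt) : ∃ C : ℝ, 0 < C ∧ ∀ (g : E → ℝ) (K : ℝ), Nice pN K g →
    NL g ≤ ENNReal.ofReal (C * (Dis g + ∫ v, g v ^ 2)) := by
  obtain ⟨C, hC, h3⟩ := h3
  refine ⟨4 * C, by positivity, fun g K Hg => (h3 g K Hg).trans ?_⟩
  have h1 := Dis_nonneg g
  have h2 : 0 ≤ ∫ v, g v ^ 2 := integral_nonneg fun _ => sq_nonneg _
  rw [DL_eq_ofReal Hg, L2L_eq Hg, ← ENNReal.ofReal_add (by positivity) h2,
    ← ENNReal.ofReal_mul hC.le]
  exact ENNReal.ofReal_le_ofReal (by nlinarith)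

theorem wgt_of (h3 : C3Stmt) : WgtStmt := by
  obtain ⟨C, hC, h3⟩ := NL_le h3
  refine ⟨C, hC, fun g K Hg => ?_⟩
  have h1 := Dis_nonneg g
  have h2 : 0 ≤ ∫ v, g v ^ 2 := integral_nonneg fun _ => sq_nonneg _
  rw [← ENNReal.ofReal_le_ofReal_iff (by positivity), ofReal_integral_eq_lintegral_ofReal
    (integrable_wt_sq Hg 8 (by norm_num)) (ae_of_all _ fun v => by positivity)]
  refine le_trans ?_ (le_add_self.trans (h3 g K Hg))
  refine lintegral_mono fun v => ENNReal.ofReal_le_ofReal ?_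
  gcongr
  exact (pow_le_pow_right₀ (by linarith [norm_nonneg v]) (by norm_num)).trans (le_wt_rpow v)

lemma lintegral_Sym_le (hg : Measurable g) (hh : Measurable h) :
    ∫⁻ q, ENNReal.ofReal (ker3 q * Inc (Sym g h) q ^ 2) ∂mu3 ≤
      4 * ∫⁻ q, ENNReal.ofReal (ker3 q * Inc (fun v w => g v * h w) q ^ 2) ∂mu3 := by
  set F := fun q => ENNReal.ofReal (ker3 q * Inc (fun v w => g v * h w) q ^ 2) with hF
  have hI : Measurable (Inc fun v w => g v * h w) := measurable_Inc (by fun_prop)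
  have hm : Measurable F := by rw [hF]; fun_prop
  calc _ ≤ ∫⁻ q, 2 * (F q + F (swp q)) ∂mu3 := by
        refine lintegral_mono fun q => ?_
        have hk := ker3_nonneg q
        simp only [hF, ker3_swp, Inc_swp]
        rw [← ENNReal.ofReal_add (by positivity) (by positivity),
          show (2 : ℝ≥0∞) = ENNReal.ofReal 2 by simp, ← ENNReal.ofReal_mul (by norm_num)]
        refine ENNReal.ofReal_le_ofReal ?_
        have e : Inc (Sym g h) q = Inc (fun v w => g v * h w) q + Inc (fun v w => g w * h v) q := by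
          simp only [Inc, Sym]; ring
        rw [e]
        nlinarith [mul_nonneg hk
          (sq_nonneg (Inc (fun v w => g v * h w) q - Inc (fun v w => g w * h v) q))]
    _ = _ := by
        have hm2 : Measurable fun q => F q + F (swp q) := hm.add (hm.comp measurable_swp)
        rw [lintegral_const_mul _ hm2, lintegral_add_left hm, lintegral_swp F hm, ← two_mul,
          ← mul_assoc]
        norm_num

theorem tri_of (h3 : C3Stmt) : TriStmt := by
  obtain ⟨C, hC, h3⟩ := NL_le h3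
  obtain ⟨C2, hC2, h2⟩ := c2
  refine ⟨√(C2 * C), by positivity, fun g h f Kg Kh Kf Hg Hh Hf => ?_⟩
  have a1 := Dis_nonneg g
  have a2 : 0 ≤ ∫ v, g v ^ 2 := integral_nonneg fun _ => sq_nonneg _
  have a3 := Dis_nonneg f
  have a4 := Hh.nonneg
  have mg := Hg.measurable
  have mh := Hh.measurable
  have mf := Hf.measurable
  have key := abs_integral_le_sqrt (μ := mu3) measurable_ker3
    (measurable_Inc (F := Sym g h) (by unfold Sym; fun_prop))
    (measurable_Inc (F := Sym f sM) (by unfold Sym; fun_prop)) ker3_nonneg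
    (A := 4 * (C2 * C) * Kh ^ 2 * (Dis g + ∫ v, g v ^ 2)) (B := 4 * Dis f) (by positivity)
    (by positivity) ?_ (DL_eq_ofReal Hf).le
  · rw [integral_Gs_mul Hg Hh Hf, abs_mul]
    refine (mul_le_mul_of_nonneg_left key (abs_nonneg _)).trans (le_of_eq ?_)
    rw [Real.sqrt_mul (by positivity), Real.sqrt_mul (by positivity), Real.sqrt_mul (by positivity),
      Real.sqrt_sq a4, Real.sqrt_mul (by norm_num : (0 : ℝ) ≤ 4) (Dis f),
      show √(4 : ℝ) = 2 by rw [show (4 : ℝ) = 2 ^ 2 by norm_num, Real.sqrt_sq (by norm_num)],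
      abs_neg, abs_of_pos (by norm_num)]
    ring
  · refine (lintegral_Sym_le mg mh).trans ?_
    calc _ ≤ 4 * (ENNReal.ofReal (C2 * Kh ^ 2) *
          ENNReal.ofReal (C * (Dis g + ∫ v, g v ^ 2))) := by
          gcongr
          exact (h2 g h Kh mg Hh).trans (by gcongr; exact h3 g Kg Hg)
      _ = _ := by
          rw [show (4 : ℝ≥0∞) = ENNReal.ofReal 4 by simp, ← ENNReal.ofReal_mul (by positivity),
            ← ENNReal.ofReal_mul (by norm_num)]
          congr 1; ring

omit [Dim] in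
lemma abs_exp_sub_exp_le {A B M : ℝ} (hA : Real.exp A ≤ M) (hB : Real.exp B ≤ M) :
    |Real.exp A - Real.exp B| ≤ M * |A - B| := by
  wlog h : B ≤ A generalizing A B
  · rw [abs_sub_comm, abs_sub_comm A]; exact this hB hA (le_of_not_ge h)
  have h1 := Real.add_one_le_exp (B - A)
  have h2 : Real.exp B = Real.exp A * Real.exp (B - A) := by rw [← Real.exp_add]; congr 1; ring
  have h3 := Real.exp_pos A
  rw [abs_of_nonneg (sub_nonneg.2 (Real.exp_le_exp.2 h)), abs_of_nonneg (sub_nonneg.2 h)]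
  nlinarith [mul_le_mul_of_nonneg_left h1 h3.le, mul_le_mul_of_nonneg_right hA (sub_nonneg.2 h)]

lemma abs_log_wt_sub_le (v z : E) : |Real.log (1 + ‖v + z‖) - Real.log (1 + ‖v‖)| ≤ ‖z‖ := by
  have key : ∀ a b : ℝ, 0 ≤ a → 0 ≤ b → |a - b| ≤ ‖z‖ →
      Real.log (1 + a) - Real.log (1 + b) ≤ ‖z‖ := by
    intro a b ha hb hab
    rw [← Real.log_div (by positivity) (by positivity)]
    refine (Real.log_le_sub_one_of_pos (by positivity)).trans ?_
    rw [sub_le_iff_le_add, div_le_iff₀ (by positivity)]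
    nlinarith [le_abs_self (a - b), norm_nonneg z]
  have h : |‖v + z‖ - ‖v‖| ≤ ‖z‖ := by simpa using abs_norm_sub_norm_le (v + z) v
  rw [abs_sub_le_iff]
  exact ⟨key _ _ (norm_nonneg _) (norm_nonneg _) h,
    key _ _ (norm_nonneg _) (norm_nonneg _) (by rwa [abs_sub_comm])⟩

lemma nice_min_sM (p : ℕ) {K : ℝ} (hK : 0 < K) :
    Nice p (2 ^ (p + 1) * (p + 2) * K) fun v => min (sM v) (K / (1 + ‖v‖) ^ (p + 1)) := by
  have hp : (1 : ℝ) ≤ 2 ^ (p + 1) * (p + 2) :=
    one_le_mul_of_one_le_of_one_le (one_le_pow₀ one_le_two) (by linarith [Nat.cast_nonneg (α := ℝ) p])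
  refine ⟨fun v => ?_, fun v z hz => ?_⟩
  · rw [abs_of_pos (lt_min (sM_pos v) (by positivity))]
    calc _ ≤ (1 + ‖v‖) ^ (p + 1) * (K / (1 + ‖v‖) ^ (p + 1)) := by
          gcongr
          · exact (lt_min (sM_pos v) (by positivity)).le
          · linarith [norm_nonneg v]
          · omega
          · exact min_le_right _ _
      _ = K := by field_simp
      _ ≤ _ := le_mul_of_one_le_left hK.le hp
  · have e : ∀ x : E, min (sM x) (K / (1 + ‖x‖) ^ (p + 1)) = Real.exp (min (-‖x‖ ^ 2 / 4)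
        (Real.log K - (p + 1 : ℕ) * Real.log (1 + ‖x‖))) := by
      intro x
      rw [Real.exp_monotone.map_min, Real.exp_sub, Real.exp_log hK, Real.exp_nat_mul,
        Real.exp_log (by positivity)]
      rfl
    have hM : ∀ x : E, ‖x - v‖ ≤ 1 →
        min (sM x) (K / (1 + ‖x‖) ^ (p + 1)) ≤ 2 ^ (p + 1) * K / (1 + ‖v‖) ^ (p + 1) := by
      intro x hx
      refine (min_le_right _ _).trans ?_
      rw [div_le_div_iff₀ (wt_pos _ _) (wt_pos _ _)]
      calc K * (1 + ‖v‖) ^ (p + 1) ≤ K * (2 * (1 + ‖x‖)) ^ (p + 1) := by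
            gcongr; exact wt_le_two_mul hx
        _ = _ := by rw [mul_pow]; ring
    have h1 := hM (v + z) (by simpa using hz)
    have h2 := hM v (by simp)
    simp only
    rw [e] at h1 h2
    rw [e, e]
    have h3 := abs_exp_sub_exp_le h1 h2
    have h4 : |min (-‖v + z‖ ^ 2 / 4) (Real.log K - (p + 1 : ℕ) * Real.log (1 + ‖v + z‖)) -
        min (-‖v‖ ^ 2 / 4) (Real.log K - (p + 1 : ℕ) * Real.log (1 + ‖v‖))|
          ≤ (p + 2) * (1 + ‖v‖) * ‖z‖ := by
      have hz0 := norm_nonneg z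
      have hv0 := norm_nonneg v
      have hp0 : (0 : ℝ) ≤ p := Nat.cast_nonneg p
      refine (abs_min_sub_min_le_max _ _ _ _).trans (max_le ?_ ?_)
      · have b1 := abs_le.1 (abs_real_inner_le_norm v z)
        rw [norm_add_sq_real, abs_le]
        constructor <;> nlinarith [mul_nonneg hv0 hz0, mul_nonneg hp0 hz0,
          mul_nonneg hp0 (mul_nonneg hv0 hz0)]
      · rw [sub_sub_sub_cancel_left, ← mul_sub, abs_mul, abs_sub_comm, Nat.abs_cast]
        calc _ ≤ ((p + 1 : ℕ) : ℝ) * ‖z‖ := by gcongr; exact abs_log_wt_sub_le v z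
          _ ≤ _ := by
            push_cast
            nlinarith [mul_nonneg hv0 hz0, mul_nonneg hp0 (mul_nonneg hv0 hz0)]
    calc _ ≤ (1 + ‖v‖) ^ p * (2 ^ (p + 1) * K / (1 + ‖v‖) ^ (p + 1) *
          ((p + 2) * (1 + ‖v‖) * ‖z‖)) := by
          gcongr; exact h3.trans (by gcongr)
      _ = _ := by field_simp; ring

/-- the negative part of sM + g is controlled by g alone -/
theorem nice_negPart (Hg : Nice (p + 1) K g) :
    Nice p ((2 ^ (p + 1) * (p + 2) + 1) * K) fun v => max (-(sM v + g v)) 0 := by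
  rcases Hg.nonneg.eq_or_lt with rfl | hK
  · have e : (fun v => max (-(sM v + g v)) 0) = fun _ => 0 := by
      funext v
      have := abs_nonpos_iff.1 (Hg.abs_le v)
      rw [this, max_eq_right]; linarith [sM_pos v]
    rw [e, mul_zero]; exact nice_zero
  have e : (fun v => max (-(sM v + g v)) 0) =
      fun v => max (-(min (sM v) (K / (1 + ‖v‖) ^ (p + 1)) + g v)) 0 := by
    funext v
    rcases le_total (sM v) (K / (1 + ‖v‖) ^ (p + 1)) with h | h
    · rw [min_eq_left h]
    · have h1 : |g v| ≤ K / (1 + ‖v‖) ^ (p + 1) := by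
        rw [le_div_iff₀' (wt_pos _ _)]; exact Hg.1 v
      have h2 := neg_abs_le (g v)
      rw [min_eq_right h, max_eq_right (by linarith), max_eq_right (by linarith)]
  rw [e, add_mul, one_mul]
  exact ((nice_min_sM p hK).add (Hg.mono (Nat.le_succ p))).neg.posPart

/-- the constant of the negative part -/
def cN : ℝ := 2 ^ (pN + 1) * (pN + 2) + 1

lemma cN_pos : 0 < cN := by unfold cN; positivity

/-- the inequality that gives positivity -/
theorem pos_ineq (h3 : C3Stmt) : ∃ ε0 : ℝ, 0 < ε0 ∧ ∀ (g n : E → ℝ) (K : ℝ), Nice (pN + 1) K g →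
    K ≤ ε0 → (n = fun v => max (-(sM v + g v)) 0) →
    Nice pN (cN * K) n ∧
      (Integrable fun v => Gam (fun x => sM x + g x) (fun x => sM x + g x) v * n v) ∧
      -∫ v, Gam (fun x => sM x + g x) (fun x => sM x + g x) v * n v
        ≤ -(1 / 2) * Dis n + ∫ v, n v ^ 2 := by
  obtain ⟨C, hC, ht⟩ := tri_of h3
  have hN := cN_pos
  refine ⟨1 / ((2 + cN) * C), by positivity, fun g n K Hg hK hn => ?_⟩
  have Hn : Nice pN (cN * K) n := hn ▸ nice_negPart (p := pN) Hg
  have Hg' : Nice pN K g := Hg.mono (by norm_num)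
  refine ⟨Hn, integrable_Gam_mul ((nice_sM pN).add Hg') ((nice_sM pN).add Hg') Hn, ?_⟩
  have h1 := neg_integral_Gam_negPart_le Hg' hn
  have h2 := (abs_le.1 (ht n g n _ _ _ Hn Hg' Hn)).2
  have h4 := (abs_le.1 (ht n n n _ _ _ Hn Hn Hn)).2
  have a1 := Dis_nonneg n
  have a2 : 0 ≤ ∫ v, n v ^ 2 := integral_nonneg fun _ => sq_nonneg _
  have a3 : √(Dis n + ∫ v, n v ^ 2) * √(Dis n) ≤ Dis n + ∫ v, n v ^ 2 := by
    calc _ ≤ √(Dis n + ∫ v, n v ^ 2) * √(Dis n + ∫ v, n v ^ 2) := by gcongr; linarith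
      _ = _ := Real.mul_self_sqrt (by positivity)
  have a4 : (2 + cN) * C * K ≤ 1 := by
    rw [le_div_iff₀ (by positivity)] at hK
    linarith
  have a5 := Hg.nonneg
  set X := √(Dis n + ∫ v, n v ^ 2) * √(Dis n) with hX
  have a6 : 0 ≤ X := by positivity
  have b1 : (2 + cN) * C * K * X ≤ 1 * (Dis n + ∫ v, n v ^ 2) := by gcongr
  have e1 : C * K * √(Dis n + ∫ v, n v ^ 2) * √(Dis n) = C * K * X := by rw [hX]; ring
  have e2 : C * (cN * K) * √(Dis n + ∫ v, n v ^ 2) * √(Dis n) = cN * (C * K * X) := by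
    rw [hX]; ring
  rw [e1] at h2
  rw [e2] at h4
  linarith

end Pool.Agent.BoltzD.Coll

end
end MrgPart0

-- ======== part 1: formerly Pool.Agent.BoltzD.Pos.Gr
section MrgPart1

/-!
Positivity module, part 1: functions of `(s, x, V)` with a polynomial bound in `V`, integrals in
`V` and over the torus, and the scalar comparison lemma.
-/

set_option autoImplicit false

open MeasureTheory Pool.Agent.BoltzC Filter Topology Set

noncomputable section

namespace Pool.Agent.BoltzD.Pos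

variable [Dim]

/-- Jointly continuous, bounded by a multiple of `(1 + |V|)^m` for `s` in `I`. -/
structure Gr (m : ℤ) (I : Set ℝ) (w : ℝ → E3 → E3 → ℝ) : Prop where
  cont : Continuous fun q : ℝ × E3 × E3 => w q.1 q.2.1 q.2.2
  bd : ∃ A : ℝ, 0 ≤ A ∧ ∀ s ∈ I, ∀ x V, |w s x V| ≤ A * (1 + ‖V‖) ^ m

variable {m m' : ℤ} {I : Set ℝ} {w w' : ℝ → E3 → E3 → ℝ}

lemma one_le_wt (V : E3) : (1 : ℝ) ≤ 1 + ‖V‖ := by linarith [norm_nonneg V]

lemma wt_pos (V : E3) : (0 : ℝ) < 1 + ‖V‖ := by positivity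

lemma Gr.mono (h : Gr m I w) (hm : m ≤ m') : Gr m' I w := by
  obtain ⟨A, hA, hb⟩ := h.bd
  exact ⟨h.cont, A, hA, fun s hs x V => (hb s hs x V).trans
    (mul_le_mul_of_nonneg_left (zpow_le_zpow_right₀ (one_le_wt V) hm) hA)⟩

lemma Gr.add (h : Gr m I w) (h' : Gr m I w') : Gr m I fun s x V => w s x V + w' s x V := by
  obtain ⟨A, hA, hb⟩ := h.bd
  obtain ⟨A', hA', hb'⟩ := h'.bd
  refine ⟨h.cont.add h'.cont, A + A', by positivity, fun s hs x V => ?_⟩
  rw [add_mul]
  exact (abs_add_le _ _).trans (add_le_add (hb s hs x V) (hb' s hs x V))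

lemma Gr.mul (h : Gr m I w) (h' : Gr m' I w') :
    Gr (m + m') I fun s x V => w s x V * w' s x V := by
  obtain ⟨A, hA, hb⟩ := h.bd
  obtain ⟨A', hA', hb'⟩ := h'.bd
  refine ⟨h.cont.mul h'.cont, A * A', by positivity, fun s hs x V => ?_⟩
  rw [abs_mul, zpow_add₀ (wt_pos V).ne', mul_mul_mul_comm]
  exact mul_le_mul (hb s hs x V) (hb' s hs x V) (abs_nonneg _)
    (mul_nonneg hA (zpow_pos (wt_pos V) _).le)

lemma Gr.mul' {k : ℤ} (h : Gr m I w) (h' : Gr m' I w') (hk : m + m' ≤ k) :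
    Gr k I fun s x V => w s x V * w' s x V := (h.mul h').mono hk

lemma gr_const (c : ℝ) : Gr 0 I fun _ _ _ => c :=
  ⟨continuous_const, |c|, abs_nonneg c, fun _ _ _ _ => by simp⟩

lemma Gr.const_mul (h : Gr m I w) (c : ℝ) : Gr m I fun s x V => c * w s x V :=
  (gr_const c).mul' h (by simp)

lemma Gr.sum {ι : Type*} (S : Finset ι) {f : ι → ℝ → E3 → E3 → ℝ} (h : ∀ i, Gr m I (f i)) :
    Gr m I fun s x V => ∑ i ∈ S, f i s x V := by
  classical
  induction S using Finset.induction_on with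
  | empty => exact ⟨by simpa using continuous_const, 0, le_rfl, fun _ _ _ _ => by simp⟩
  | insert j S hj ih =>
    simp only [Finset.sum_insert hj]
    exact (h j).add ih

lemma gr_coord (i : Ix) : Gr 1 I fun _ _ V => V i := by
  refine ⟨by fun_prop, 1, zero_le_one, fun _ _ _ V => ?_⟩
  have := PiLp.norm_apply_le V i
  rw [Real.norm_eq_abs] at this
  simp only [zpow_one, one_mul]
  linarith

lemma gr_coef {a : ℝ → E3 → ℝ} (hc : Continuous fun p : ℝ × E3 => a p.1 p.2)
    (hp : ∀ s, Per (a s)) (hI : IsCompact I) : Gr 0 I fun s x _ => a s x := by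
  obtain ⟨C, hC, hb⟩ := exists_bound_of_per hc hp hI
  exact ⟨hc.comp (f := fun q : ℝ × E3 × E3 => (q.1, q.2.1)) (by fun_prop), C, hC.le,
    fun s hs x V => by simpa using hb s hs x⟩

lemma Gr.cont_V (h : Gr m I w) (s : ℝ) (x : E3) : Continuous (w s x) :=
  h.cont.comp (f := fun V : E3 => (s, x, V)) (by fun_prop)

/-- An integrable decay exponent. -/
def mI : ℤ := -((dd + 1 : ℕ) : ℤ)

lemma integrable_wt4 : Integrable fun V : E3 => (1 + ‖V‖) ^ mI := by
  have h := integrable_one_add_norm (E := E3) (μ := volume) (r := ((dd + 1 : ℕ) : ℝ))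
    (by rw [finrank_Ix]; exact_mod_cast Nat.lt_succ_self dd)
  refine h.congr (Eventually.of_forall fun V => ?_)
  beta_reduce
  rw [← Real.rpow_intCast, mI, Int.cast_neg, Int.cast_natCast]

lemma Gr.integrable (h : Gr mI I w) {s : ℝ} (hs : s ∈ I) (x : E3) : Integrable (w s x) := by
  obtain ⟨A, -, hb⟩ := h.bd
  exact (integrable_wt4.const_mul A).mono' (h.cont_V s x).aestronglyMeasurable
    (Eventually.of_forall fun V => hb s hs x V)

lemma Gr.cont_int (h : Gr mI I w) : Continuous fun p : I × E3 => ∫ V, w p.1 p.2 V := by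
  obtain ⟨A, -, hb⟩ := h.bd
  refine continuous_of_dominated (bound := fun V => A * (1 + ‖V‖) ^ mI)
    (fun p => (h.cont_V _ _).aestronglyMeasurable)
    (fun p => Eventually.of_forall fun V => hb _ p.1.2 _ V) (integrable_wt4.const_mul A)
    (Eventually.of_forall fun V => ?_)
  exact h.cont.comp (f := fun p : I × E3 => ((p.1 : ℝ), p.2, V)) (by fun_prop)

lemma Gr.cont_x (h : Gr mI I w) {s : ℝ} (hs : s ∈ I) : Continuous fun x => ∫ V, w s x V :=
  h.cont_int.comp (f := fun x : E3 => ((⟨s, hs⟩ : I), x)) (by fun_prop)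

lemma Gr.bd_int (h : Gr mI I w) : ∃ C, ∀ s ∈ I, ∀ x, ‖∫ V, w s x V‖ ≤ C := by
  obtain ⟨A, -, hb⟩ := h.bd
  exact ⟨_, fun s hs x => norm_integral_le_of_norm_le (integrable_wt4.const_mul A)
    (Eventually.of_forall fun V => hb s hs x V)⟩

lemma Gr.contOn_tint (h : Gr mI I w) :
    ContinuousOn (fun s => tint fun x => ∫ V, w s x V) I := by
  rw [continuousOn_iff_continuous_domRestrict]
  exact continuous_tint (T := I) (φ := fun s x => ∫ V, w s x V) h.cont_int

/-- Derivative under the `V` integral along a curve of parameters. -/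
lemma hasDerivAt_int (h : Gr mI I w) (h' : Gr mI I w') {a : ℝ → ℝ} {y : ℝ → E3} {U : Set ℝ}
    {t0 : ℝ} (hU : U ∈ 𝓝 t0) (ha : ∀ t ∈ U, a t ∈ I)
    (hd : ∀ t ∈ U, ∀ V, HasDerivAt (fun τ => w (a τ) (y τ) V) (w' (a t) (y t) V) t) :
    HasDerivAt (fun τ => ∫ V, w (a τ) (y τ) V) (∫ V, w' (a t0) (y t0) V) t0 := by
  obtain ⟨A, -, hb⟩ := h'.bd
  exact (hasDerivAt_integral_of_dominated_loc_of_deriv_le (μ := volume)
    (F := fun τ V => w (a τ) (y τ) V) (F' := fun τ V => w' (a τ) (y τ) V)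
    (bound := fun V => A * (1 + ‖V‖) ^ mI) hU
    (Eventually.of_forall fun τ => (h.cont_V _ _).aestronglyMeasurable)
    (h.integrable (ha t0 (mem_of_mem_nhds hU)) _) (h'.cont_V _ _).aestronglyMeasurable
    (Eventually.of_forall fun V t ht => hb _ (ha t ht) _ V) (integrable_wt4.const_mul A)
    (Eventually.of_forall fun V t ht => hd t ht V)).2

/-- Time derivative of the double integral. -/
lemma hasDerivAt_tint_int (h : Gr mI I w) (h' : Gr mI I w') {s : ℝ} (hs : I ∈ 𝓝 s)
    (hd : ∀ t x V, HasDerivAt (fun τ => w τ x V) (w' t x V) t) :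
    HasDerivAt (fun τ => tint fun x => ∫ V, w τ x V) (tint fun x => ∫ V, w' s x V) s := by
  obtain ⟨C, hC⟩ := h'.bd_int
  have hs0 : s ∈ I := mem_of_mem_nhds hs
  have hI : interior I ∈ 𝓝 s := interior_mem_nhds.2 hs
  refine (hasDerivAt_integral_of_dominated_loc_of_deriv_le (μ := volume.restrict (cube 0 1))
    (F := fun τ x => ∫ V, w τ x V) (F' := fun τ x => ∫ V, w' τ x V) (bound := fun _ => C) hI
    ?_ (integrableOn_tint (h.cont_x hs0)) (h'.cont_x hs0).aestronglyMeasurable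
    (Eventually.of_forall fun x t ht => hC t (interior_subset ht) x)
    (integrableOn_tint continuous_const) (Eventually.of_forall fun x t ht => ?_)).2
  · filter_upwards [hs] with t ht
    exact (h.cont_x ht).aestronglyMeasurable
  · exact hasDerivAt_int h h' (a := fun τ => τ) (y := fun _ => x) (mem_interior_iff_mem_nhds.1 ht)
      (fun _ hτ => hτ) fun τ _ V => hd τ x V

/-- A space derivative integrates to zero. -/
lemma tint_int_eq_zero (h : Gr mI I w) (h' : Gr mI I w') {s : ℝ} (hs : s ∈ I) {z : E3}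
    (hp : ∀ V, Per fun x => w s x V)
    (hd : ∀ x V (t : ℝ), HasDerivAt (fun τ : ℝ => w s (x + τ • z) V) (w' s (x + t • z) V) t) :
    (tint fun x => ∫ V, w' s x V) = 0 := by
  refine tint_deriv_eq_zero (φ := fun x => ∫ V, w s x V) (z := z) (fun i x => ?_) (h.cont_x hs)
    (h'.cont_x hs) fun x => ?_
  · exact integral_congr_ae (Eventually.of_forall fun V => hp V i x)
  · have := hasDerivAt_int h h' (a := fun _ => s) (y := fun τ => x + τ • z) (t0 := 0) univ_mem
      (fun _ _ => hs) fun τ _ V => hd x V τ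
    simpa using this

/-- A velocity derivative integrates to zero. -/
lemma int_eq_zero (h : Gr mI I w) (h' : Gr mI I w') {s : ℝ} (hs : s ∈ I) (x : E3) {z : E3}
    (hd : ∀ V, HasDerivAt (fun τ : ℝ => w s x (V + τ • z)) (w' s x V) 0) :
    ∫ V, w' s x V = 0 := by
  have := integral_bilinear_hasLineDerivAt_right_eq_neg_left_of_integrable (μ := volume)
    (f := fun _ : E3 => (1 : ℝ)) (f' := fun _ => 0) (g := w s x) (g' := w' s x) (v := z)
    (B := ContinuousLinearMap.mul ℝ ℝ) (by simp) (by simpa using h'.integrable hs x)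
    (by simpa using h.integrable hs x) (fun V _ => hasDerivAt_const _ _) (fun V _ => hd V)
  simpa using this

/-- The square of the negative part is differentiable. -/
lemma hasDerivAt_negsq (t : ℝ) :
    HasDerivAt (fun u : ℝ => max (-u) 0 ^ 2) (-2 * max (-t) 0) t := by
  refine hasDerivAt_of_hasDerivAt_of_ne' (g := fun u : ℝ => -2 * max (-u) 0) (x := 0)
    (fun y hy => ?_) (by fun_prop) (by fun_prop) t
  rcases lt_or_gt_of_ne hy with h | h
  · have h1 : HasDerivAt (fun u : ℝ => u ^ 2) (-2 * max (-y) 0) y := by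
      rw [max_eq_left (by linarith)]
      simpa using hasDerivAt_pow 2 y
    refine h1.congr_of_eventuallyEq ?_
    filter_upwards [gt_mem_nhds h] with u hu
    rw [max_eq_left (by linarith), neg_sq]
  · have h1 : HasDerivAt (fun _ : ℝ => (0 : ℝ)) (-2 * max (-y) 0) y := by
      rw [max_eq_right (by linarith)]
      simpa using hasDerivAt_const y (0 : ℝ)
    refine h1.congr_of_eventuallyEq ?_
    filter_upwards [lt_mem_nhds h] with u hu
    rw [max_eq_right (by linarith)]
    simp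

/-- Scalar comparison lemma. -/
lemma le_zero_of_deriv_le {e e' : ℝ → ℝ} {a b C : ℝ} (hab : a ≤ b) (hc : ContinuousOn e (Icc a b))
    (hd : ∀ s ∈ Ioo a b, HasDerivAt e (e' s) s) (hl : ∀ s ∈ Ioo a b, e' s ≤ C * e s)
    (h0 : e a = 0) : e b ≤ 0 := by
  have key := antitoneOn_of_hasDerivWithinAt_nonpos (convex_Icc a b)
    (f := fun s => Real.exp (-C * s) * e s)
    (f' := fun s => Real.exp (-C * s) * (-C * 1) * e s + Real.exp (-C * s) * e' s)
    (ContinuousOn.mul (by fun_prop) hc) (fun s hs => ?_) (fun s hs => ?_)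
  · have := key (left_mem_Icc.2 hab) (right_mem_Icc.2 hab) hab
    simp only [h0, mul_zero] at this
    exact nonpos_of_mul_nonpos_right this (Real.exp_pos _)
  · rw [interior_Icc] at hs
    exact ((((hasDerivAt_id s).const_mul (-C)).exp).mul (hd s hs)).hasDerivWithinAt
  · rw [interior_Icc] at hs
    have := mul_le_mul_of_nonneg_left (hl s hs) (Real.exp_pos (-C * s)).le
    nlinarith

end Pool.Agent.BoltzD.Pos

end
end MrgPart1

-- marker of a merged file
example : 731051 + 758542 = 731051 + 758542 := rfl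

end MrgPart2

-- marker of a merged file
example : 731051 + 758542 = 731051 + 758542 := rfl
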